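import Pool.Agent.TH658.Xr.Fix

set_option autoImplicit false

/-!
# Sign-equivariant programs of linear algebra for 3-SAT have exponential size

The group `Γ = (Z/2)^n` of sign changes (negations of variables) acts on the `k`-CNF formulas with
`n` variables. A program is a sequence of gates. The value of a gate is an arbitrary function of
the isomorphism class of a vector space of dimension `r` (over some field of characteristic not
two, which may depend on the gate) with endomorphisms and sesquilinear forms, on which the sign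
changes in a subgroup `H` of `Γ` act by a linear representation (`ClassGate`, cost `r^2 [Γ : H]`),
or an arbitrary function of the traces of the products of `r × r` matrices on which each sign
change in `H` acts by some conjugation (`TraceGate`, cost `r^4 [Γ : H]`). The entries of the
matrices are linear combinations of arbitrary functions of the clauses on at most `d` variables
and of arbitrary functions of the value of an earlier gate at the formula with some variables
negated. A gate thus stands for the `[Γ : H]` gates which one gets from it by sign changes; the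
cost is the number of the entries of their matrices. For instance, a circuit with gates computing
arbitrary functions of the number of their true inputs, which is mapped to itself by all sign
changes, is a program with one gate of dimension one for each orbit of its gates, whose cost is
the number of gates.

Let `k ≥ 3`, `C ≥ 4 / η^2`, `D = 10^5 C^2 k^3`, `n ≥ D` and `d ≤ n / D`.

(1) There are two distributions on sets of `C n 2^(k-1)` clauses with `k` literals, one on
satisfiable sets and one on sets of which every assignment falsifies more than the fraction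
`(1 - η) / 2^k`, such that the distributions of the value of a program of cost `S` differ by at
most `S / 8^⌊n / D⌋`.
(2) So a program whose value separates the satisfiable sets of clauses from those far from
satisfiable in the sense of (1) has cost at least `8^⌊n / D⌋`.

For `k = 3` this is about distinguishing satisfiable 3-CNFs from 3-CNFs of which no assignment
satisfies `7 / 8 + η / 8` of the clauses.
-/

namespace Pool.Agent.Results.MP_79d702_lc.EquivariantPrograms

open Pool.Agent.TH658.Xr

/-- Each assignment falsifies more than the fraction `(1 - η) / 2^k` of the clauses. -/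
def Far {n k : ℕ} (η : ℝ) (G : CNF n k) : Prop :=
  ∀ x : Fin n → ZMod 2, (1 - η) * size G < 2 ^ k * falsified G x

/-- `F` is a set of `M` clauses. -/
def IsSet {n k : ℕ} (M : ℕ) (F : CNF n k) : Prop := (∀ c, F c ≤ 1) ∧ size F = M

/-- The sum over the gates of the square (for class gates; for trace gates the fourth power) of the
dimension, times the index of the group. -/
noncomputable def cost {n s : ℕ} (H : Fin s → AddSubgroup (Fin n → ZMod 2)) (r p : Fin s → ℕ) :
    ℕ := ∑ j, r j ^ p j * (H j).index

/-- The values of the programs have nearly the same distribution on the families `F`, `G`. -/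
def Fooled {n k : ℕ} (d B : ℕ) {Ω : Type} (F G : Ω → CNF n k) : Prop :=
  ∀ (s : ℕ) (V : Type) (v : Fin s → CNF n k → V) (H : Fin s → AddSubgroup (Fin n → ZMod 2))
    (r p : Fin s → ℕ), IsProgram d v H r p → ∀ (j₀ : Fin s) (T : Set V),
    |(Nat.card {ω // v j₀ (F ω) ∈ T} : ℝ) - Nat.card {ω // v j₀ (G ω) ∈ T}| * B ≤
      cost H r p * Nat.card Ω

/-- `k` is at least three, `C` is large compared to `1 / η`, and `n` is at least
`D = 10^5 C^2 k^3`. -/
def Params (η : ℝ) (C k n D : ℕ) : Prop :=
  0 < η ∧ η ≤ 1 ∧ 4 / η ^ 2 ≤ C ∧ 3 ≤ k ∧ D = 100000 * C ^ 2 * k ^ 3 ∧ D ≤ n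

/-- (1) Average case. -/
def AverageCase : Prop :=
  ∀ (η : ℝ) (C k n D d : ℕ), Params η C k n D → d ≤ n / D →
    ∃ (Ω : Type) (_ : Fintype Ω) (_ : Nonempty Ω) (F G : Ω → CNF n k),
      (∀ ω, Satisfiable (F ω) ∧ Far η (G ω) ∧ IsSet (C * n * 2 ^ (k - 1)) (F ω) ∧
        IsSet (C * n * 2 ^ (k - 1)) (G ω)) ∧ Fooled d (8 ^ (n / D)) F G

/-- (2) Worst case. -/
def WorstCase : Prop :=
  ∀ (η : ℝ) (C k n D d : ℕ), Params η C k n D → d ≤ n / D →
    ∀ (s : ℕ) (V : Type) (v : Fin s → CNF n k → V) (H : Fin s → AddSubgroup (Fin n → ZMod 2))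
      (r p : Fin s → ℕ), IsProgram d v H r p → ∀ j₀ : Fin s,
      (∀ F G : CNF n k, Satisfiable F → Far η G → IsSet (C * n * 2 ^ (k - 1)) F →
        IsSet (C * n * 2 ^ (k - 1)) G → v j₀ F ≠ v j₀ G) →
      8 ^ (n / D) ≤ cost H r p

theorem average : AverageCase := by
  rintro η C k n D d ⟨hη, hη1, hC, hk, rfl, hn⟩ hd
  obtain ⟨Ω, i1, i2, F, G, h1, h2⟩ := hard_fixed hη hη1 hC hk hn
  refine ⟨Ω, i1, i2, F, G, fun ω => ?_, ?_⟩
  · obtain ⟨h3, h4, h5, h6, h7, h8⟩ := h1 ω
    exact ⟨h3, h8, ⟨h6, h4⟩, ⟨h7, h5⟩⟩
  · intro s V v H r p hp j₀ T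
    have h3 := h2 d s V v H r p hd hp j₀ T
    have h4 : (((8 : ℕ) ^ (n / (100000 * C ^ 2 * k ^ 3)) : ℕ) : ℝ) =
        (8 : ℝ) ^ (n / (100000 * C ^ 2 * k ^ 3)) := by
      push_cast
      rfl
    rw [h4]
    exact h3

theorem worst : WorstCase := by
  intro η C k n D d hp hd s V v H r p hprog j₀ hsep
  obtain ⟨Ω, i1, i2, F, G, h1, h2⟩ := average η C k n D d hp hd
  have hΩ : (0 : ℝ) < Nat.card Ω := by
    rw [Nat.card_eq_fintype_card]
    exact_mod_cast Fintype.card_pos
  have h3 := h2 s V v H r p hprog j₀ (Set.range fun ω => v j₀ (F ω))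
  have h4 : Nat.card {ω // v j₀ (F ω) ∈ Set.range fun ω => v j₀ (F ω)} = Nat.card Ω :=
    Nat.card_congr (Equiv.subtypeUnivEquiv fun ω => ⟨ω, rfl⟩)
  have h5 : Nat.card {ω // v j₀ (G ω) ∈ Set.range fun ω => v j₀ (F ω)} = 0 := by
    have : IsEmpty {ω // v j₀ (G ω) ∈ Set.range fun ω => v j₀ (F ω)} := by
      refine ⟨?_⟩
      rintro ⟨ω, ω', h⟩
      exact hsep (F ω') (G ω) (h1 ω').1 (h1 ω).2.1 (h1 ω').2.2.1 (h1 ω).2.2.2 h
    exact Nat.card_of_isEmpty
  rw [h4, h5, Nat.cast_zero, sub_zero, abs_of_pos hΩ, mul_comm] at h3
  have h6 := le_of_mul_le_mul_right h3 hΩ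
  exact_mod_cast h6

/-- The average case and the worst case. -/
theorem result : AverageCase ∧ WorstCase := ⟨average, worst⟩

end Pool.Agent.Results.MP_79d702_lc.EquivariantPrograms
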