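import Pool.Agent.TH706.ST.Find

/-!
# Finding satisfying assignments: accesses times memory is quadratic, with an unlimited stack

The model is a non-uniform randomised program with random access to the input, with `s` nodes (a
memory of `log s` bits) and with a stack (pushdown store) of unlimited height for arbitrary symbols;
the number of steps is unlimited too. By the non-uniform version of Cook's theorem (1971) the
programs of this kind with polynomially many nodes compute exactly what Boolean circuits of
polynomial size compute. So NP is contained in P/poly if and only if such programs, with
polynomially many nodes, find satisfying assignments for the satisfiable 3-CNF formulas. The only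
resource that is bounded here, apart from the number of the nodes, is the number `T` of the reads
of bits of the formula and of the writes of values of variables. The theorem says
`T * (log s + π) ≥ c M ^ 2` for formulas with `M` clauses, even if the program finds the satisfying
assignment only with probability `2 ^ (- π)`, and even if there is only one. So programs with
polynomially many nodes need `Ω (M ^ 2 / log M)` accesses, and programs with `O (M)` accesses need
`2 ^ (Ω (M))` nodes.

(The theorem `StackTradeoff` of the starting files for P versus NP is about the decision problem and
about the way of heads on the input; for the decision problem and random access no such bound is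
known.)

Proof. The formulas express sparse systems of linear equations over the field with two elements,
with `n` unknowns and `8 n` equations with nine terms each; they have `264 n` clauses, and only
`8 n` signs depend on the right hand side. For a random system (`Pool.Agent.TH706.ST.exists_sys`)
the right hand sides determine the unknowns, but any `k ≤ n / 2 ^ 22` equations contain at least
`6 k` unknowns. Hence, by a weight argument, the linear combinations of `k` equations which contain
only unknowns of a set `R` span a space of dimension at most `2 |R| / 3`
(`Pool.Agent.TH706.ST.finrank_inf`); and the values of `k` right hand sides determine the unknowns
in `R` with probability at most `2 ^ (- |R| / 3)`. A computation with a stack is cut into few pieces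
which are adaptive procedures with few reads (`Pool.Agent.W896.MO.pieces` in the starting files);
one of them has to write the values of many unknowns.
-/

set_option autoImplicit false

namespace Pool.Agent.Results.MP_79d702_lc.FindingAssignments

open Pool.Agent.W896.MO Pool.Agent.TH706.ST

/-- There is a constant `D` such that for all `M ≥ 1` and `ℓ` with `M ≤ 2 ^ ℓ` there is a nonempty
set `W` of 3-CNF formulas with `M` clauses and variables named by words of `ℓ` bits, each of which
has exactly one satisfying assignment (of the variables that occur in it), with the following
property. Let `P r`, `r ∈ R`, be programs with a stack, and let `T` and `π` be such that for random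
`r ∈ R` and `w ∈ W` the program `P r` finds the satisfying assignment of `w`, with at most `T` reads
and writes, with probability at least `2 ^ (- π)`. Then `M ^ 2 ≤ D T (⌊log₂ s⌋ + π + 1)` for the
number `s` of nodes of some `P r`. -/
theorem result : ∃ D : ℕ, 0 < D ∧ ∀ M ℓ : ℕ, 1 ≤ M → M ≤ 2 ^ ℓ →
    ∃ W : Finset (Idx M ℓ → Bool), W.Nonempty ∧ (∀ w ∈ W, UniqueSat w) ∧
      ∀ (T π : ℕ) (R : Type) [Fintype R] [Nonempty R]
        (P : R → Prog (Idx M ℓ) (Fin ℓ → Bool) Bool),
        Nat.card R * W.card ≤ 2 ^ π * Nat.card {u : R × W // Finds (P u.1) u.2.1 T} →
        ∃ r, M ^ 2 ≤ D * (T * (Nat.log 2 (Fintype.card (P r).State) + π + 1)) :=
  find_main

end Pool.Agent.Results.MP_79d702_lc.FindingAssignments
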