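import Pool.Agent.W901.FC.LawA
import Pool.Agent.TH709.PpolyEq

/-!
# NP versus P/poly and the prediction of answers: how many help bits give how much advantage

`InPpoly L` (file `Pool/Agent/W954/Sav/PDefs.lean`): for some `k`, for all `n` there is a circuit of
AND, OR and NOT gates with at most `n ^ k + k` AND and OR gates which decides `L` on the inputs of
length `n`. `InNP` and `NPHard` (hardness under polynomial-time many-one reductions) are those of
`Pool/Agent/NPC/Defs.lean`; polynomial time is Mathlib's `Turing.TM2ComputableInPolyTime`.

Let a polynomial-time algorithm with polynomial advice make predictions for the answers to the `m`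
questions whether `y` is in `A`, `y` in a list of `m` strings; it may abstain on some of them. How
much can the number of right predictions differ from the number of wrong ones, for every list, if the
algorithm gets in addition `k` bits of help, which may depend on the list in any way?

`HelpAdvOn (Short ε) k t A`: the difference is at least `t` on all lists of `m ≥ m₀` strings of
length at most `m ^ ε`; `HelpAdvOn Every k t A`: for all lists of `m ≥ m₀` strings;
`HelpAll k t A`: for all lists of `m ≥ m₀` strings, by an algorithm without advice.

There is a constant `C` such that for all `k`, `t` with `t ^ 2 ≥ C * 2 ^ k` or
`t ^ 2 ≥ (k + 1) * 2 ^ (k + 1)` and all `ε > 0`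

`NP ⊆ P/poly` iff `HelpAdvOn (Short ε) k t A` for some `NP`-hard set `A` iff
`HelpAdvOn Every k t A` for all `A` in `NP`,

while `HelpAll k t A` holds for all sets `A` whatsoever if `(t - 1) ^ 2 < 2 ^ k`. So without help
(`k = 0`) the difference `1` is free and the difference `2` gives `NP ⊆ P/poly`; with one bit of help
the difference `2` is free and `3` gives `NP ⊆ P/poly`.

This is the theorem `help_law_ppoly` of the starting file `Pool/Agent/W901/FC/LawA.lean`, which had
not been handed in, with circuits instead of advice for `P/poly`.

Proof. Let `L` be in `NP`. Single-valued `NP` functions `x ↦ w` have polynomially long candidate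
lists: the prefixes of `w` are found in a search tree, where a prefix `v` survives only if for all
seeds of a hash function the `K = 2 ^ k` vectors of predictions for the label questions (whether the
bit `i` of the label of the prefix of `w` is one) are compatible with the label of `v`. The labels
are all sign vectors with at most `K` changes of sign, up to `K` further exceptional entries:
polynomially many. By the theorem of Borsuk and Ulam (in the form of Hobby and Rice) there is a step
function with `K` jumps which is orthogonal to all `K` vectors, and by Spencer's theorem (linear
discrepancy) its at most `K` fractional entries can be rounded such that all `K` scalar products are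
smaller than `C * √ K`. So for each seed one label is incompatible; pairwise independent hashing of
more than `2 * F ^ 2` prefixes to `F` labels hits the incompatible label for some seed. So few
survive. The vector of the answers to parallel `NP` questions is the value of a single-valued `NP`
function once the number of positive answers is known, so it has a short list of candidates, and the
level algorithm of `Pool.Agent.H579R6` searches for a witness of `x ∈ L`.

Free advantage: the rows of a Hadamard matrix, by Parseval's equation.
-/

set_option autoImplicit false

namespace Pool.Agent.Results.MP_79d702_lc.HelpBitsLaw

open Pool.Agent.NPC Pool.Agent.W901.FH Pool.Agent.W954.Sav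

/-- **The law of help bits for `NP` and polynomial-size circuits.** -/
theorem result : ∃ C : ℕ, ∀ (k t : ℕ) (ε : ℝ),
    (0 < ε → C * 2 ^ k ≤ t ^ 2 ∨ (k + 1) * 2 ^ (k + 1) ≤ t ^ 2 → List.TFAE
      [∀ L : Set (List Bool), InNP L → InPpoly L,
        ∃ A : Set (List Bool), NPHard A ∧ HelpAdvOn (Short ε) k t A,
        ∀ A : Set (List Bool), InNP A → HelpAdvOn Every k t A]) ∧
    ((t - 1) ^ 2 < 2 ^ k → ∀ A : Set (List Bool), HelpAll k t A) := by
  simp only [Pool.Agent.TH709.ppoly_iff]
  exact help_law_ppoly

end Pool.Agent.Results.MP_79d702_lc.HelpBitsLaw
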