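import Pool.Agent.TH709.Thr
import Pool.Agent.TH709.PpolyEq

/-!
# NP versus P/poly and the prediction of answers: the exact threshold is `√ (log m)`

`InPpoly L` (file `Pool/Agent/W954/Sav/PDefs.lean`): for some `k`, for all `n` there is a circuit of
AND, OR and NOT gates with at most `n ^ k + k` AND and OR gates which decides `L` on the inputs of
length `n`. `InNP` and `NPHard` (hardness under polynomial-time many-one reductions) are those of
`Pool/Agent/NPC/Defs.lean`; polynomial time is Mathlib's `Turing.TM2ComputableInPolyTime`.

A set `A` is `(f, ε)`-predictable (`PredAdv f ε A`) if some polynomial-time algorithm with an advice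
string of polynomial length computes, for every nonempty list of `m` questions of length at most
`m ^ ε` about membership in `A` and for some hint of `O(log n)` bits, which may depend on the list in
any way, predictions for a nonempty subset of `s` of the questions such that the number of right
predictions and the number of wrong predictions differ by at least `f m * √ s` (random guessing has
standard deviation `√ s`). It is fully `f`-predictable (`FullyPredAdv f A`) if there are, without
hints, such predictions for all questions and all lists of questions of any length.

The theorem, for `ε > 0` and functions `f` with `f m ≤ √ m`.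

* If `f m / √ (log m)` tends to infinity then a set `A` is in `P/poly` iff it is `(f, ε)`-predictable
  iff it is fully `f`-predictable, for every set `A` of bit strings. So `NP ⊆ P/poly` iff some
  `NP`-hard set is `(f, ε)`-predictable iff all sets in `NP` are fully `f`-predictable.
* If `f m ≤ c √ (log m)` for some constant `c` then every set whatsoever is `(f, ε)`-predictable.

Proof of the first part. Online learning (the weighted vote of the prediction vectors for all hints,
with several learning rates) turns predictions with an advantage above the threshold into a program
which guesses membership in `A`, for every distribution on the strings of a given length, with a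
correlation of at least `1 / m`; boosting gives an advice string of polynomial length with which all
questions of a given length are answered correctly. The tools are those of `Pool/Agent/W901/NU`,
which were used there for classes which contain `NP`, and with a larger advantage `m ^ δ` for
`P/poly`.
-/

set_option autoImplicit false

namespace Pool.Agent.Results.MP_79d702_lc.PredictionThreshold

open Filter Pool.Agent.NPC Pool.Agent.W954.Sav Pool.Agent.TH709

/-- **The threshold law for polynomial-size circuits.** -/
theorem result (f : ℕ → ℝ) (ε : ℝ) (hε : 0 < ε) (hf : ∀ m : ℕ, 1 ≤ m → f m ≤ Real.sqrt m) :
    (Tendsto (fun m : ℕ => f m / Real.sqrt (Real.log m)) atTop atTop →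
      (∀ A : Set (List Bool), List.TFAE [InPpoly A, PredAdv f ε A, FullyPredAdv f A]) ∧
      List.TFAE [∀ L : Set (List Bool), InNP L → InPpoly L,
        ∃ A : Set (List Bool), NPHard A ∧ PredAdv f ε A,
        ∀ A : Set (List Bool), InNP A → FullyPredAdv f A]) ∧
    (∀ c : ℝ, (∀ m : ℕ, 1 ≤ m → f m ≤ c * Real.sqrt (Real.log m)) →
      ∀ A : Set (List Bool), PredAdv f ε A) := by
  obtain ⟨h1, h2⟩ := threshold_law f ε hε hf
  simp only [ppoly_iff]
  exact ⟨h1, h2⟩

end Pool.Agent.Results.MP_79d702_lc.PredictionThreshold
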